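import Pool.Agent.N886.SE.Cnt

/-!
# Sets of positive rational numbers any four of which have multiplicatively dependent quotients
-/

set_option autoImplicit false

namespace Pool.Agent.N671.PP

open Finset

/-- Integer vectors any three of which are linearly dependent: two coordinates determine the vector. -/
theorem coords {ι P : Type*} [Nonempty P] (f : ι → P → ℤ) (E : Set ι)
    (h : ∀ i ∈ E, ∀ j ∈ E, ∀ k ∈ E, ∃ x y z : ℤ, (x ≠ 0 ∨ y ≠ 0 ∨ z ≠ 0) ∧
      ∀ p, x * f i p + y * f j p + z * f k p = 0) :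
    ∃ p q : P, ∀ i ∈ E, ∀ j ∈ E, f i p = f j p → f i q = f j q → f i = f j := by
  by_cases h1 : ∃ i ∈ E, ∃ j ∈ E, ∃ p q : P, f i p * f j q - f i q * f j p ≠ 0
  · obtain ⟨i, hi, j, hj, p, q, hdet⟩ := h1
    refine ⟨p, q, fun k hk k' hk' e1 e2 => ?_⟩
    obtain ⟨x, y, z, hxyz, hrel⟩ := h i hi j hj k hk
    obtain ⟨x', y', z', hxyz', hrel'⟩ := h i hi j hj k' hk'
    have hnz : ∀ x y z : ℤ, (x ≠ 0 ∨ y ≠ 0 ∨ z ≠ 0) →
        (∀ p, x * f i p + y * f j p + z * f k p = 0 ∨ x * f i p + y * f j p + z * f k' p = 0) →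
        z ≠ 0 := by
      rintro x y z hne hr rfl
      have hp : x * f i p + y * f j p = 0 := by
        rcases hr p with h | h <;> simpa using h
      have hq : x * f i q + y * f j q = 0 := by
        rcases hr q with h | h <;> simpa using h
      have hx : x = 0 := by
        have : x * (f i p * f j q - f i q * f j p) = 0 := by
          linear_combination (f j q) * hp - (f j p) * hq
        exact (mul_eq_zero.1 this).resolve_right hdet
      have hy : y = 0 := by
        have : y * (f i p * f j q - f i q * f j p) = 0 := by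
          linear_combination (f i p) * hq - (f i q) * hp
        exact (mul_eq_zero.1 this).resolve_right hdet
      simp [hx, hy] at hne
    have hz : z ≠ 0 := hnz x y z hxyz fun p => Or.inl (hrel p)
    have hz' : z' ≠ 0 := hnz x' y' z' hxyz' fun p => Or.inr (hrel' p)
    have key : ∀ r : P, z * z' * (f k r - f k' r) =
        (z * x' - z' * x) * f i r + (z * y' - z' * y) * f j r := fun r => by
      linear_combination z' * hrel r - z * hrel' r
    have k1 := key p
    have k2 := key q
    rw [e1, sub_self, mul_zero] at k1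
    rw [e2, sub_self, mul_zero] at k2
    have hX : z * x' - z' * x = 0 := by
      have : (z * x' - z' * x) * (f i p * f j q - f i q * f j p) = 0 := by
        linear_combination (-(f j q)) * k1 + (f j p) * k2
      exact (mul_eq_zero.1 this).resolve_right hdet
    have hY : z * y' - z' * y = 0 := by
      have : (z * y' - z' * y) * (f i p * f j q - f i q * f j p) = 0 := by
        linear_combination (f i q) * k1 - (f i p) * k2
      exact (mul_eq_zero.1 this).resolve_right hdet
    funext r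
    have k3 := key r
    rw [hX, hY, zero_mul, zero_mul, add_zero] at k3
    have := (mul_eq_zero.1 k3).resolve_left (mul_ne_zero hz hz')
    omega
  · push Not at h1
    by_cases h2 : ∃ i ∈ E, ∃ p, f i p ≠ 0
    · obtain ⟨i, hi, p, hp⟩ := h2
      refine ⟨p, p, fun k hk k' hk' e _ => ?_⟩
      funext r
      have a1 := h1 i hi k hk p r
      have a2 := h1 i hi k' hk' p r
      have : f i p * (f k r - f k' r) = 0 := by
        rw [e] at a1
        linear_combination a1 - a2
      have := (mul_eq_zero.1 this).resolve_left hp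
      omega
    · push Not at h2
      obtain ⟨p⟩ := ‹Nonempty P›
      refine ⟨p, p, fun k hk k' hk' _ _ => ?_⟩
      funext r
      rw [h2 k hk r, h2 k' hk' r]

/-- a positive rational number all of whose valuations vanish is one -/
theorem eq_one_of_val {q : ℚ} (hq : 0 < q) (h : ∀ p : ℕ, p.Prime → padicValRat p q = 0) : q = 1 := by
  have hn : 0 < q.num := Rat.num_pos.2 hq
  have hcop : Nat.Coprime q.num.natAbs q.den := q.reduced
  have key : ∀ p : ℕ, p.Prime → padicValNat p q.num.natAbs = padicValNat p q.den := by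
    intro p hp
    have := h p hp
    unfold padicValRat at this
    rw [padicValInt] at this
    omega
  have hden : q.den = 1 := by
    by_contra hne
    obtain ⟨p, hp, hpd⟩ := Nat.exists_prime_and_dvd hne
    have : Fact p.Prime := ⟨hp⟩
    have h1 : 1 ≤ padicValNat p q.den := one_le_padicValNat_of_dvd q.den_pos.ne' hpd
    rw [← key p hp] at h1
    have h2 : p ∣ q.num.natAbs := by
      by_contra hno
      rw [padicValNat.eq_zero_of_not_dvd hno] at h1
      omega
    exact hp.one_lt.ne' (Nat.dvd_one.1 (hcop ▸ Nat.dvd_gcd h2 hpd))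
  have hnum : q.num.natAbs = 1 := by
    by_contra hne
    obtain ⟨p, hp, hpd⟩ := Nat.exists_prime_and_dvd hne
    have : Fact p.Prime := ⟨hp⟩
    have h1 : 1 ≤ padicValNat p q.num.natAbs := one_le_padicValNat_of_dvd (by omega) hpd
    rw [key p hp, hden] at h1
    simp at h1
  have h3 : q.num = 1 := by omega
  rw [← Rat.num_div_den q, h3, hden]
  norm_num

theorem eq_of_val {q r : ℚ} (hq : 0 < q) (hr : 0 < r)
    (h : ∀ p : ℕ, p.Prime → padicValRat p q = padicValRat p r) : q = r := by
  have h1 : q / r = 1 := by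
    refine eq_one_of_val (div_pos hq hr) fun p hp => ?_
    have : Fact p.Prime := ⟨hp⟩
    rw [padicValRat.div hq.ne' hr.ne', h p hp, sub_self]
  rwa [div_eq_one_iff_eq hr.ne'] at h1

theorem val_bound {q : ℚ} (hq : 0 < q) {N p : ℕ} (hp : p.Prime) (h1 : q.num ≤ N) (h2 : q.den ≤ N) :
    |padicValRat p q| ≤ Nat.log 2 N := by
  have hn : 0 < q.num := Rat.num_pos.2 hq
  have a1 := Pool.Agent.N886.SE.val_le_log (n := q.num.natAbs) (N := N) (by omega) (by omega) hp
  have a2 := Pool.Agent.N886.SE.val_le_log (n := q.den) (N := N) q.den_pos h2 hp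
  unfold padicValRat
  rw [padicValInt, abs_le]
  constructor <;> omega

/-- any four members have multiplicatively dependent quotients -/
def Dep (E : Set ℚ) : Prop :=
  ∀ a ∈ E, ∀ b ∈ E, ∀ c ∈ E, ∀ d ∈ E, ∃ x y z : ℤ, (x ≠ 0 ∨ y ≠ 0 ∨ z ≠ 0) ∧
    (b / a) ^ x * (c / a) ^ y * (d / a) ^ z = 1

theorem val_rel {a b c d : ℚ} (ha : 0 < a) (hb : 0 < b) (hc : 0 < c) (hd : 0 < d) {x y z : ℤ}
    (h : (b / a) ^ x * (c / a) ^ y * (d / a) ^ z = 1) (p : ℕ) [Fact p.Prime] :
    x * (padicValRat p b - padicValRat p a) + y * (padicValRat p c - padicValRat p a) +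
      z * (padicValRat p d - padicValRat p a) = 0 := by
  have h1 := congrArg (padicValRat p) h
  have eb : b / a ≠ 0 := (div_pos hb ha).ne'
  have ec : c / a ≠ 0 := (div_pos hc ha).ne'
  have ed : d / a ≠ 0 := (div_pos hd ha).ne'
  rw [padicValRat.mul (mul_ne_zero (zpow_ne_zero _ eb) (zpow_ne_zero _ ec)) (zpow_ne_zero _ ed),
    padicValRat.mul (zpow_ne_zero _ eb) (zpow_ne_zero _ ec), padicValRat.one] at h1
  rw [padicValRat.zpow, padicValRat.zpow, padicValRat.zpow, padicValRat.div hb.ne' ha.ne',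
    padicValRat.div hc.ne' ha.ne', padicValRat.div hd.ne' ha.ne'] at h1
  exact h1

/-- **Counting.** -/
theorem card_le (E : Finset ℚ) (N : ℕ) (hE : ∀ r ∈ E, 0 < r ∧ r.num ≤ N ∧ r.den ≤ N)
    (h : Dep (E : Set ℚ)) : E.card ≤ (2 * Nat.log 2 N + 1) ^ 2 := by
  rcases E.eq_empty_or_nonempty with rfl | ⟨a, ha⟩
  · simp
  have : Nonempty Nat.Primes := ⟨⟨2, Nat.prime_two⟩⟩
  obtain ⟨p, q, hpq⟩ := coords (ι := ℚ) (P := Nat.Primes)
    (fun r p => padicValRat p r - padicValRat p a) (E : Set ℚ) (by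
      intro i hi j hj k hk
      obtain ⟨x, y, z, hne, hrel⟩ := h a (mem_coe.2 ha) i hi j hj k hk
      refine ⟨x, y, z, hne, fun p => ?_⟩
      have : Fact (p : ℕ).Prime := ⟨p.2⟩
      exact val_rel (hE a ha).1 (hE i (mem_coe.1 hi)).1 (hE j (mem_coe.1 hj)).1
        (hE k (mem_coe.1 hk)).1 hrel p)
  set L : ℤ := (Nat.log 2 N : ℤ) with hL
  have hcard : (E.image fun r => (padicValRat p r, padicValRat q r)).card = E.card := by
    refine card_image_of_injOn ?_
    intro r hr s hs heq
    simp only [Prod.mk.injEq] at heq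
    have h1 := hpq r hr s hs (by simp only [heq.1]) (by simp only [heq.2])
    refine eq_of_val (hE r (mem_coe.1 hr)).1 (hE s (mem_coe.1 hs)).1 fun t ht => ?_
    have h2 := congrFun h1 ⟨t, ht⟩
    simp only at h2
    linarith
  rw [← hcard]
  have hsub : (E.image fun r => (padicValRat p r, padicValRat q r)) ⊆ Icc (-L) L ×ˢ Icc (-L) L := by
    intro t ht
    obtain ⟨r, hr, rfl⟩ := mem_image.1 ht
    have h1 := hE r hr
    rw [mem_product, mem_Icc, mem_Icc]
    exact ⟨abs_le.1 (val_bound h1.1 p.2 h1.2.1 h1.2.2), abs_le.1 (val_bound h1.1 q.2 h1.2.1 h1.2.2)⟩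
  refine (card_le_card hsub).trans ?_
  rw [card_product, Int.card_Icc, ← sq]
  refine Nat.pow_le_pow_left ?_ 2
  rw [hL]
  omega

/-- four different primes have multiplicatively independent quotients -/
theorem primes_card_le (E : Finset ℕ) (hE : ∀ n ∈ E, n.Prime)
    (h : Dep {r : ℚ | ∃ n ∈ E, (n : ℚ) = r}) : E.card ≤ 3 := by
  by_contra hcon
  push Not at hcon
  obtain ⟨s, hsE, hs⟩ := Finset.exists_subset_card_eq (by omega : 4 ≤ E.card)
  obtain ⟨a, b, c, d, hab, hac, had, hbc, hbd, hcd, rfl⟩ := Finset.card_eq_four.1 hs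
  have ma : a ∈ E := hsE (by simp)
  have mb : b ∈ E := hsE (by simp)
  have mc : c ∈ E := hsE (by simp)
  have md : d ∈ E := hsE (by simp)
  obtain ⟨x, y, z, hne, hrel⟩ := h a ⟨a, ma, rfl⟩ b ⟨b, mb, rfl⟩ c ⟨c, mc, rfl⟩ d ⟨d, md, rfl⟩
  have pa := hE a ma
  have pb := hE b mb
  have pc := hE c mc
  have pd := hE d md
  have : Fact a.Prime := ⟨pa⟩
  have : Fact b.Prime := ⟨pb⟩
  have : Fact c.Prime := ⟨pc⟩
  have : Fact d.Prime := ⟨pd⟩
  have v0 : ∀ {s t : ℕ} (hs : s.Prime) (ht : t.Prime), s ≠ t → padicValRat s (t : ℚ) = 0 := by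
    intro s t hs ht hst
    have : Fact s.Prime := ⟨hs⟩
    have : Fact t.Prime := ⟨ht⟩
    rw [padicValRat.of_nat, padicValNat_primes hst]
    rfl
  have v1 : ∀ {s : ℕ} (hs : s.Prime), padicValRat s (s : ℚ) = 1 := by
    intro s hs
    have : Fact s.Prime := ⟨hs⟩
    rw [padicValRat.of_nat, padicValNat_self]
    rfl
  have qa : (0 : ℚ) < a := by exact_mod_cast pa.pos
  have qb : (0 : ℚ) < b := by exact_mod_cast pb.pos
  have qc : (0 : ℚ) < c := by exact_mod_cast pc.pos
  have qd : (0 : ℚ) < d := by exact_mod_cast pd.pos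
  have e1 := val_rel qa qb qc qd hrel b
  have e2 := val_rel qa qb qc qd hrel c
  have e3 := val_rel qa qb qc qd hrel d
  rw [v1 pb, v0 pb pa hab.symm, v0 pb pc hbc, v0 pb pd hbd] at e1
  rw [v1 pc, v0 pc pa hac.symm, v0 pc pb hbc.symm, v0 pc pd hcd] at e2
  rw [v1 pd, v0 pd pa had.symm, v0 pd pb hbd.symm, v0 pd pc hcd.symm] at e3
  simp at e1 e2 e3
  omega

end Pool.Agent.N671.PP
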