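import Pool.Agent.N886.SE.Gen
import Pool.Agent.N671.PP.Count

/-!
# Four rational numbers `r` for which `u r ^ θ` is very close to a rational number
-/

set_option autoImplicit false

namespace Pool.Agent.N671.PP

open Finset Pool.Agent.N886.SE

/-- a linear form in `1` and `θ` which is smaller than the measure of `θ` allows -/
theorem no_form {θ κ : ℝ} (hκ : 0 ≤ κ)
    (hmeas : ∀ q : ℕ, 1 ≤ q → ∀ p : ℤ, Real.exp (-(κ * q)) ≤ |q * θ - p|) {R : ℕ} {x y : ℤ}
    (hxy : x ≠ 0 ∨ y ≠ 0) (hy : |y| < (R : ℤ) ^ 3)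
    (hlt : |(x : ℝ) + y * θ| < Real.exp (-(κ * (R : ℝ) ^ 3))) : False := by
  have hRpos : (0 : ℝ) ≤ κ * (R : ℝ) ^ 3 := by positivity
  by_cases hy0 : y = 0
  · have hx0 : x ≠ 0 := hxy.resolve_right (fun h => h hy0)
    rw [hy0, Int.cast_zero, zero_mul, add_zero] at hlt
    have h1 : (1 : ℝ) ≤ |(x : ℝ)| := by exact_mod_cast Int.one_le_abs hx0
    have h2 : Real.exp (-(κ * (R : ℝ) ^ 3)) ≤ 1 := Real.exp_le_one_iff.2 (by linarith)
    linarith
  · have hya : 1 ≤ y.natAbs := Int.natAbs_pos.2 hy0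
    have hyR : (y.natAbs : ℝ) ≤ (R : ℝ) ^ 3 := by
      have h1 : (y.natAbs : ℤ) ≤ (R : ℤ) ^ 3 := by
        rw [Int.natCast_natAbs]
        exact hy.le
      exact_mod_cast h1
    have h1 := hmeas y.natAbs hya (-(x * y.sign))
    have h2 : |(y.natAbs : ℝ) * θ - ((-(x * y.sign) : ℤ) : ℝ)| = |(x : ℝ) + y * θ| := by
      have hs : (y.natAbs : ℝ) = (y.sign : ℝ) * y := by
        have := Int.sign_mul_self_eq_natAbs y
        have h5 : ((y.natAbs : ℕ) : ℝ) = (((y.natAbs : ℕ) : ℤ) : ℝ) := (Int.cast_natCast _).symm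
        rw [h5, ← this, Int.cast_mul]
      rw [hs]
      push_cast
      have hsq : |((y.sign : ℤ) : ℝ)| = 1 := by
        rcases lt_or_gt_of_ne hy0 with h | h
        · rw [Int.sign_eq_neg_one_of_neg h]; simp
        · rw [Int.sign_eq_one_of_pos h]; simp
      have e : (y.sign : ℝ) * y * θ - -(x * (y.sign : ℝ)) = (y.sign : ℝ) * (x + y * θ) := by ring
      rw [e, abs_mul, hsq, one_mul]
    rw [h2] at h1
    have h3 : Real.exp (-(κ * (R : ℝ) ^ 3)) ≤ Real.exp (-(κ * (y.natAbs : ℝ))) :=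
      Real.exp_le_exp.2 (by
        have := mul_le_mul_of_nonneg_left hyR hκ
        linarith)
    linarith

/-- from a relation between the logarithms to a multiplicative relation -/
theorem rel_of_log {v : Fin 3 → ℚ} (hv : ∀ m, 0 < v m) (d : Fin 3 → ℤ) (hd : d ≠ 0)
    (h : ∑ m, (d m : ℝ) * Real.log (v m) = 0) :
    ∃ x y z : ℤ, (x ≠ 0 ∨ y ≠ 0 ∨ z ≠ 0) ∧ v 0 ^ x * v 1 ^ y * v 2 ^ z = 1 := by
  refine ⟨d 0, d 1, d 2, ?_, ?_⟩
  · by_contra hcon
    push Not at hcon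
    apply hd
    funext m
    fin_cases m
    · exact hcon.1
    · exact hcon.2.1
    · exact hcon.2.2
  · rw [Fin.sum_univ_three] at h
    have h0 : (0 : ℝ) < v 0 := by exact_mod_cast hv 0
    have h1 : (0 : ℝ) < v 1 := by exact_mod_cast hv 1
    have h2 : (0 : ℝ) < v 2 := by exact_mod_cast hv 2
    have h3 : ((v 0 : ℝ) ^ (d 0) * (v 1 : ℝ) ^ (d 1) * (v 2 : ℝ) ^ (d 2)) = 1 := by
      have hpos : 0 < ((v 0 : ℝ) ^ (d 0) * (v 1 : ℝ) ^ (d 1) * (v 2 : ℝ) ^ (d 2)) := by positivity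
      rw [← Real.exp_log hpos, Real.log_mul (by positivity) (by positivity),
        Real.log_mul (by positivity) (by positivity), Real.log_zpow, Real.log_zpow, Real.log_zpow, h,
        Real.exp_zero]
    have h4 : (((v 0 ^ (d 0) * v 1 ^ (d 1) * v 2 ^ (d 2) : ℚ)) : ℝ) = 1 := by
      push_cast
      exact h3
    exact_mod_cast h4

theorem div_eq_divInt {a b : ℚ} (ha : 0 < a) (hb : 0 < b) :
    a / b = Rat.divInt (a.num * b.den) (a.den * b.num) := by
  have hm : 0 < b.num := Rat.num_pos.2 hb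
  have h1 : (a.den : ℚ) ≠ 0 := by exact_mod_cast a.den_pos.ne'
  have h2 : (b.num : ℚ) ≠ 0 := by exact_mod_cast hm.ne'
  have e1 : a * a.den = a.num := Rat.mul_den_eq_num a
  have e2 : b * b.den = b.num := Rat.mul_den_eq_num b
  rw [Rat.divInt_eq_div]
  push_cast
  rw [div_eq_div_iff hb.ne' (mul_ne_zero h1 h2)]
  linear_combination (b.num : ℚ) * e1 - (a.num : ℚ) * e2

theorem num_div_le {a b : ℚ} (ha : 0 < a) (hb : 0 < b) {H : ℕ} (han : a.num ≤ H) (hbd : b.den ≤ H) :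
    (a / b).num ≤ (H : ℤ) ^ 2 := by
  have hn : 0 < a.num := Rat.num_pos.2 ha
  have hm : 0 < b.num := Rat.num_pos.2 hb
  have e : a / b = Rat.divInt (a.num * b.den) (a.den * b.num) := div_eq_divInt ha hb
  have h1 : (a / b).num ∣ a.num * b.den := by
    rw [e]
    exact Rat.num_dvd _ (by positivity)
  have h2 : (a / b).num ≤ a.num * b.den := Int.le_of_dvd (by positivity) h1
  refine h2.trans ?_
  rw [sq]
  exact mul_le_mul han (by exact_mod_cast hbd) (by positivity) (by positivity)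

theorem den_div_le {a b : ℚ} (ha : 0 < a) (hb : 0 < b) {H : ℕ} (had : a.den ≤ H) (hbn : b.num ≤ H) :
    (a / b).den ≤ H ^ 2 := by
  have hm : 0 < b.num := Rat.num_pos.2 hb
  have e : a / b = Rat.divInt (a.num * b.den) (a.den * b.num) := div_eq_divInt ha hb
  have h1 : ((a / b).den : ℤ) ∣ a.den * b.num := by
    rw [e]
    exact Rat.den_dvd _ _
  have h2 : ((a / b).den : ℤ) ≤ a.den * b.num := Int.le_of_dvd (by positivity) h1
  have h3 : (a.den : ℤ) * b.num ≤ H * H :=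
    mul_le_mul (by exact_mod_cast had) hbn hm.le (by positivity)
  have h4 : ((a / b).den : ℤ) ≤ ((H ^ 2 : ℕ) : ℤ) := by
    push_cast
    rw [sq]
    exact h2.trans h3
  exact_mod_cast h4

/-- the rational number `r` of height at most `H` for which `u r ^ θ` is within a factor `exp (± ε)` of a rational
number `s` of height at most `H` -/
def CloseLog (u θ ε : ℝ) (H : ℕ) (r : ℚ) : Prop :=
  0 < r ∧ r.num ≤ H ∧ r.den ≤ H ∧ ∃ s : ℚ, 0 < s ∧ s.num ≤ H ∧ s.den ≤ H ∧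
    |Real.log s - (Real.log u + θ * Real.log r)| ≤ ε

set_option maxHeartbeats 4000000 in
/-- **Four rational numbers.** -/
theorem four {θ κ : ℝ} (hθ : 0 < θ) (hκ : 0 ≤ κ)
    (hmeas : ∀ q : ℕ, 1 ≤ q → ∀ p : ℤ, Real.exp (-(κ * q)) ≤ |q * θ - p|) {C : ℝ}
    (hC : (κ + 2) * (2002 * (1 + θ)) ^ 15 ≤ C) (u : ℝ) {H : ℕ} (hH : 2 ≤ H) :
    Dep {r | CloseLog u θ (Real.exp (-(C * Real.log H ^ 15))) H r} := by
  rintro a ⟨ha, han, had, s0, hs0, hs0n, hs0d, hl0⟩ b ⟨hb, hbn, hbd, s1, hs1, hs1n, hs1d, hl1⟩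
    c ⟨hc, hcn, hcd, s2, hs2, hs2n, hs2d, hl2⟩ d ⟨hd, hdn, hdd, s3, hs3, hs3n, hs3d, hl3⟩
  by_contra hcon
  have hH2 : 2 ≤ H ^ 2 := by nlinarith
  obtain ⟨R, L, hL1, hRL, hHL, hRH⟩ := exists_R hθ.le hH2
  have hR666 : (666 : ℝ) ≤ R := by nlinarith
  have hlogH : 0 < Real.log H := Real.log_pos (by exact_mod_cast hH)
  have hlog2 : Real.log ((H ^ 2 : ℕ) : ℝ) = 2 * Real.log H := by
    rw [Nat.cast_pow, Real.log_pow]
    norm_num
  rw [hlog2] at hRH
  set ε : ℝ := Real.exp (-(C * Real.log H ^ 15)) with hε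
  have hR15 : (R : ℝ) ^ 15 ≤ (2002 * (1 + θ)) ^ 15 * Real.log H ^ 15 := by
    rw [← mul_pow]
    exact pow_le_pow_left₀ (by positivity) (by linarith) _
  have hCle : (κ + 2) * (R : ℝ) ^ 15 ≤ C * Real.log H ^ 15 := by
    calc (κ + 2) * (R : ℝ) ^ 15 ≤ (κ + 2) * ((2002 * (1 + θ)) ^ 15 * Real.log H ^ 15) :=
          mul_le_mul_of_nonneg_left hR15 (by linarith)
      _ = ((κ + 2) * (2002 * (1 + θ)) ^ 15) * Real.log H ^ 15 := by ring
      _ ≤ _ := mul_le_mul_of_nonneg_right hC (by positivity)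
  have hR1 : (1 : ℝ) ≤ (R : ℝ) ^ 15 := one_le_pow₀ (by linarith)
  have h2exp : (2 : ℝ) ≤ Real.exp 1 := by
    have := Real.add_one_le_exp (1 : ℝ)
    linarith
  have hε2 : 2 * ε ≤ Real.exp (-((R : ℝ) ^ 12 * (κ * R ^ 3 + (R : ℝ) ^ 3))) := by
    calc 2 * ε ≤ Real.exp 1 * ε := mul_le_mul_of_nonneg_right h2exp (Real.exp_pos _).le
      _ = Real.exp (1 + -(C * Real.log H ^ 15)) := (Real.exp_add _ _).symm
      _ ≤ _ := by
          refine Real.exp_le_exp.2 ?_
          have : (R : ℝ) ^ 12 * (κ * R ^ 3 + (R : ℝ) ^ 3) = (κ + 1) * R ^ 15 := by ring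
          rw [this]
          linarith
  have hquot : ∀ (r s : ℚ), 0 < r → 0 < s → |Real.log s - (Real.log u + θ * Real.log r)| ≤ ε →
      |Real.log ((s / s0 : ℚ) : ℝ) - θ * Real.log ((r / a : ℚ) : ℝ)| ≤ 2 * ε := by
    intro r s hr hs hl
    have r1 : (r : ℝ) ≠ 0 := by exact_mod_cast hr.ne'
    have r2 : (s : ℝ) ≠ 0 := by exact_mod_cast hs.ne'
    have r3 : (a : ℝ) ≠ 0 := by exact_mod_cast ha.ne'
    have r4 : (s0 : ℝ) ≠ 0 := by exact_mod_cast hs0.ne'
    push_cast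
    rw [Real.log_div r2 r4, Real.log_div r1 r3]
    rw [abs_le] at hl hl0 ⊢
    constructor
    · linarith [hl.1, hl0.2]
    · linarith [hl.2, hl0.1]
  set v : Fin 3 → ℚ := ![b / a, c / a, d / a] with hv
  set w : Fin 3 → ℚ := ![s1 / s0, s2 / s0, s3 / s0] with hw
  have hvpos : ∀ m, 0 < v m := by
    intro m
    fin_cases m
    · exact div_pos hb ha
    · exact div_pos hc ha
    · exact div_pos hd ha
  have hwpos : ∀ m, 0 < w m := by
    intro m
    fin_cases m
    · exact div_pos hs1 hs0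
    · exact div_pos hs2 hs0
    · exact div_pos hs3 hs0
  have hHL' : ((H : ℝ)) ^ 2 ≤ Real.exp L := by
    have := hHL
    push_cast at this
    exact this
  have hvn : ∀ m, ((v m).num : ℝ) ≤ Real.exp L := by
    intro m
    have : (v m).num ≤ (H : ℤ) ^ 2 := by
      fin_cases m
      · exact num_div_le hb ha hbn had
      · exact num_div_le hc ha hcn had
      · exact num_div_le hd ha hdn had
    have h2 : ((v m).num : ℝ) ≤ (H : ℝ) ^ 2 := by exact_mod_cast this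
    exact h2.trans hHL'
  have hvd : ∀ m, ((v m).den : ℝ) ≤ Real.exp L := by
    intro m
    have : (v m).den ≤ H ^ 2 := by
      fin_cases m
      · exact den_div_le hb ha hbd han
      · exact den_div_le hc ha hcd han
      · exact den_div_le hd ha hdd han
    have h2 : ((v m).den : ℝ) ≤ (H : ℝ) ^ 2 := by exact_mod_cast this
    exact h2.trans hHL'
  have hwd : ∀ m, ((w m).den : ℝ) ≤ Real.exp L := by
    intro m
    have : (w m).den ≤ H ^ 2 := by
      fin_cases m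
      · exact den_div_le hs1 hs0 hs1d hs0n
      · exact den_div_le hs2 hs0 hs2d hs0n
      · exact den_div_le hs3 hs0 hs3d hs0n
    have h2 : ((w m).den : ℝ) ≤ (H : ℝ) ^ 2 := by exact_mod_cast this
    exact h2.trans hHL'
  obtain ⟨x, y, hxy, -, hy, hlt⟩ := core R θ L (κ * R ^ 3) hθ.le hL1 hRL (by positivity) v w hvpos hwpos
    hvn hvd hwd (fun e he _ h0 => hcon (by
      have := rel_of_log hvpos e he h0
      exact this))
    (fun m => by
      refine le_trans ?_ hε2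
      fin_cases m
      · exact hquot b s1 hb hs1 hl1
      · exact hquot c s2 hc hs2 hl2
      · exact hquot d s3 hd hs3 hl3)
  exact no_form hκ hmeas hxy hy hlt

end Pool.Agent.N671.PP
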